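import Mathlib

set_option autoImplicit false

namespace Pool.Agent.Results.MP_8db76d_al.Disconnected

section Defs
variable {F A : Type} [Field F] [AddCommGroup A] [Module F A] (m : A →ₗ[F] A →ₗ[F] A)

/-- `A_λ(a)` -/
def eig (a : A) (l : F) : Submodule F A := LinearMap.ker (m a - l • LinearMap.id)

/-- `𝓕 ∋ 1` and `star` maps pairs of elements of `𝓕` to subsets of `𝓕` -/
def IsFusionLaw (S : Set F) (star : F → F → Set F) : Prop :=
  1 ∈ S ∧ ∀ l ∈ S, ∀ k ∈ S, star l k ⊆ S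

/-- a primitive axis for the fusion law (the sum of eigenspaces is automatically direct) -/
def IsPrimitiveAxis (S : Set F) (star : F → F → Set F) (a : A) : Prop :=
  a ≠ 0 ∧ m a a = a ∧ (⨆ l ∈ S, eig m a l) = ⊤ ∧
    (∀ l ∈ S, ∀ k ∈ S, ∀ u ∈ eig m a l, ∀ v ∈ eig m a k, m u v ∈ ⨆ n ∈ star l k, eig m a n) ∧
    eig m a 1 = Submodule.span F {a}

/-- `X` generates the algebra -/
def Generates (X : Set A) : Prop :=
  ∀ B : Submodule F A, X ⊆ B → (∀ u ∈ B, ∀ v ∈ B, m u v ∈ B) → B = ⊤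

def IsIdeal (I : Submodule F A) : Prop := ∀ a ∈ I, ∀ b : A, m a b ∈ I ∧ m b a ∈ I

/-- `A² ≠ 0` and the only ideals are `0` and `A` -/
def Simple : Prop := (∃ x y : A, m x y ≠ 0) ∧ ∀ I : Submodule F A, IsIdeal m I → I = ⊥ ∨ I = ⊤

/-- `A ≠ 0` and there is no direct sum decomposition into `k ≥ 2` nonzero mutually annihilating ideals -/
def Indecomposable : Prop :=
  (∃ x : A, x ≠ 0) ∧ ∀ (k : ℕ) (I : Fin k → Submodule F A), 2 ≤ k → (∀ i, IsIdeal m (I i)) →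
    (∀ i, I i ≠ ⊥) → (∀ i j, i ≠ j → ∀ u ∈ I i, ∀ v ∈ I j, m u v = 0) →
    ¬ DirectSum.IsInternal I

/-- the non-annihilation graph -/
def nonAnn (X : Set A) : SimpleGraph X := SimpleGraph.fromRel (fun a b => m a b ≠ 0)

end Defs

/-- basis `a₁, a₂, b, n`: `aᵢ² = aᵢ`, `b² = b`, `a₁a₂ = (a₁ + a₂)/2 + n`, `bn = n/2`,
`n² = a₁ + a₂ + b`, `aᵢb = aᵢn = 0` -/
def mf (x y : Fin 4 → ℚ) : Fin 4 → ℚ :=
  ![x 0 * y 0 + (x 0 * y 1 + x 1 * y 0) / 2 + x 3 * y 3,
    x 1 * y 1 + (x 0 * y 1 + x 1 * y 0) / 2 + x 3 * y 3,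
    x 2 * y 2 + x 3 * y 3,
    x 0 * y 1 + x 1 * y 0 + (x 2 * y 3 + x 3 * y 2) / 2]

def mm : (Fin 4 → ℚ) →ₗ[ℚ] (Fin 4 → ℚ) →ₗ[ℚ] (Fin 4 → ℚ) :=
  LinearMap.mk₂ ℚ mf
    (fun a b c => by ext i; fin_cases i <;> simp [mf] <;> ring)
    (fun r a b => by ext i; fin_cases i <;> simp [mf] <;> ring)
    (fun a b c => by ext i; fin_cases i <;> simp [mf] <;> ring)
    (fun r a b => by ext i; fin_cases i <;> simp [mf] <;> ring)

lemma mm_apply (x y : Fin 4 → ℚ) : mm x y = mf x y := rfl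

lemma mem_eig (a v : Fin 4 → ℚ) (l : ℚ) : v ∈ eig mm a l ↔ mf a v = l • v := by
  simp [eig, mm_apply, sub_eq_zero]

def S0 : Set ℚ := {1, 0, 1 / 2}

lemma top_of (a : Fin 4 → ℚ)
    (h : ∀ x, ∃ u v w, mf a u = (1 : ℚ) • u ∧ mf a v = (0 : ℚ) • v ∧ mf a w = (1 / 2 : ℚ) • w ∧
      x = u + v + w) : (⨆ l ∈ S0, eig mm a l) = ⊤ := by
  rw [eq_top_iff]
  intro x _
  obtain ⟨u, v, w, hu, hv, hw, rfl⟩ := h x
  refine Submodule.add_mem _ (Submodule.add_mem _ ?_ ?_) ?_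
  · exact Submodule.mem_iSup_of_mem 1 (Submodule.mem_iSup_of_mem (by simp [S0]) ((mem_eig _ _ _).2 hu))
  · exact Submodule.mem_iSup_of_mem 0 (Submodule.mem_iSup_of_mem (by simp [S0]) ((mem_eig _ _ _).2 hv))
  · exact Submodule.mem_iSup_of_mem (1 / 2)
      (Submodule.mem_iSup_of_mem (by simp [S0]) ((mem_eig _ _ _).2 hw))

lemma axis_of (a : Fin 4 → ℚ) (h0 : a ≠ 0) (h1 : mf a a = a) (h2 : (⨆ l ∈ S0, eig mm a l) = ⊤)
    (h3 : ∀ v, mf a v = v → ∃ c : ℚ, c • a = v) : IsPrimitiveAxis mm S0 (fun _ _ => S0) a := by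
  refine ⟨h0, h1, h2, fun l _ k _ u _ v _ => by rw [h2]; trivial, ?_⟩
  ext v
  rw [mem_eig, one_smul, Submodule.mem_span_singleton]
  refine ⟨h3 v, ?_⟩
  rintro ⟨c, rfl⟩
  rw [← mm_apply, map_smul, mm_apply, h1]

def e0 : Fin 4 → ℚ := ![1, 0, 0, 0]
def e1 : Fin 4 → ℚ := ![0, 1, 0, 0]
def e2 : Fin 4 → ℚ := ![0, 0, 1, 0]
def e3 : Fin 4 → ℚ := ![0, 0, 0, 1]

lemma simple_mm : Simple mm := by
  refine ⟨⟨e0, e0, fun h => by simpa [mm_apply, mf, e0] using congrFun h 0⟩, fun I hI => ?_⟩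
  by_cases h0 : I = ⊥
  · exact Or.inl h0
  right
  have k3 : e3 ∈ I → I = ⊤ := by
    intro h3
    have p1 := (hI _ h3 e3).1
    have p2 := (hI _ p1 e2).1
    have p3 := (hI _ p1 e0).1
    rw [eq_top_iff]
    intro x _
    have e : x = x 3 • e3 + x 2 • mm (mm e3 e3) e2 + x 1 • (mm e3 e3 - mm (mm e3 e3) e2) +
        (x 0 - x 1) • (mm (mm e3 e3) e0 - e3 - (1 / 2 : ℚ) • (mm e3 e3 - mm (mm e3 e3) e2)) := by
      ext i; fin_cases i <;> simp [mm_apply, mf, e0, e2, e3] <;> ring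
    rw [e]
    exact I.add_mem (I.add_mem (I.add_mem (I.smul_mem _ h3) (I.smul_mem _ p2))
      (I.smul_mem _ (I.sub_mem p1 p2)))
      (I.smul_mem _ (I.sub_mem (I.sub_mem p3 h3) (I.smul_mem _ (I.sub_mem p1 p2))))
  have k : ∀ v ∈ I, v 3 ≠ 0 → I = ⊤ := by
    intro v hv h
    apply k3
    have p1 := (hI _ hv e2).1
    have p2 := (hI _ p1 e2).1
    have e : e3 = (4 / v 3) • (mm v e2 - mm (mm v e2) e2) := by
      ext i; fin_cases i <;> simp [mm_apply, mf, e2, e3]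
      field_simp
      ring
    rw [e]
    exact I.smul_mem _ (I.sub_mem p1 p2)
  obtain ⟨v, hv, hv0⟩ := Submodule.exists_mem_ne_zero_of_ne_bot h0
  by_cases c3 : v 3 = 0
  · by_cases c2 : v 2 = 0
    · by_cases c1 : v 1 = 0
      · have c0 : v 0 ≠ 0 := by
          intro c0; apply hv0; ext i; fin_cases i <;> simp [c0, c1, c2, c3]
        exact k _ (hI _ hv e1).1 (by simpa [mm_apply, mf, e1] using c0)
      · exact k _ (hI _ hv e0).1 (by simpa [mm_apply, mf, e0] using c1)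
    · exact k _ (hI _ hv e3).1 (by simpa [mm_apply, mf, e3] using c2)
  · exact k _ hv c3

theorem result : ∃ (S : Set ℚ) (star : ℚ → ℚ → Set ℚ) (A : Type) (_ : AddCommGroup A) (_ : Module ℚ A)
    (m : A →ₗ[ℚ] A →ₗ[ℚ] A) (X : Set A),
    IsFusionLaw S star ∧ (∀ x y, m x y = m y x) ∧ (∀ a ∈ X, IsPrimitiveAxis m S star a) ∧
      Generates m X ∧ Simple m ∧ Indecomposable m ∧ ¬ (nonAnn m X).Preconnected := by
  refine ⟨S0, fun _ _ => S0, Fin 4 → ℚ, inferInstance, inferInstance, mm, {e0, e1, e2},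
    ⟨by simp [S0], fun _ _ _ _ => subset_rfl⟩, ?_, ?_, ?_, simple_mm, ⟨⟨e0, fun h => by
      simpa [e0] using congrFun h 0⟩, ?_⟩, ?_⟩
  · intro x y
    ext i; fin_cases i <;> simp [mm_apply, mf] <;> ring
  · rintro a (rfl | rfl | rfl)
    · refine axis_of _ (fun h => by simpa [e0] using congrFun h 0) ?_ (top_of _ fun x => ?_) ?_
      · ext i; fin_cases i <;> simp [mf, e0]
      · refine ⟨![x 0 + x 1, 0, 0, 0], ![0, 0, x 2, x 3 - 2 * x 1], ![-x 1, x 1, 0, 2 * x 1], ?_, ?_, ?_, ?_⟩ <;>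
          ext i <;> fin_cases i <;> simp [mf, e0] <;> ring
      · intro v h
        have h1 := congrFun h 1
        have h2 := congrFun h 2
        have h3 := congrFun h 3
        simp [mf, e0] at h1 h2 h3
        refine ⟨v 0, ?_⟩
        ext i; fin_cases i <;> simp [e0] <;> linarith
    · refine axis_of _ (fun h => by simpa [e1] using congrFun h 1) ?_ (top_of _ fun x => ?_) ?_
      · ext i; fin_cases i <;> simp [mf, e1]
      · refine ⟨![0, x 0 + x 1, 0, 0], ![0, 0, x 2, x 3 - 2 * x 0], ![x 0, -x 0, 0, 2 * x 0], ?_, ?_, ?_, ?_⟩ <;>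
          ext i <;> fin_cases i <;> simp [mf, e1] <;> ring
      · intro v h
        have h1 := congrFun h 0
        have h2 := congrFun h 2
        have h3 := congrFun h 3
        simp [mf, e1] at h1 h2 h3
        refine ⟨v 1, ?_⟩
        ext i; fin_cases i <;> simp [e1] <;> linarith
    · refine axis_of _ (fun h => by simpa [e2] using congrFun h 2) ?_ (top_of _ fun x => ?_) ?_
      · ext i; fin_cases i <;> simp [mf, e2]
      · refine ⟨![0, 0, x 2, 0], ![x 0, x 1, 0, 0], ![0, 0, 0, x 3], ?_, ?_, ?_, ?_⟩ <;>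
          ext i <;> fin_cases i <;> simp [mf, e2] <;> ring
      · intro v h
        have h1 := congrFun h 0
        have h2 := congrFun h 1
        have h3 := congrFun h 3
        simp [mf, e2] at h1 h2 h3
        refine ⟨v 2, ?_⟩
        ext i; fin_cases i <;> simp [e2] <;> linarith
  · intro B hX hB
    have h0 : e0 ∈ B := hX (by simp)
    have h1 : e1 ∈ B := hX (by simp)
    have h2 : e2 ∈ B := hX (by simp)
    have h3 := hB _ h0 _ h1
    rw [eq_top_iff]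
    intro x _
    have e : x = (x 0 - x 3 / 2) • e0 + (x 1 - x 3 / 2) • e1 + x 2 • e2 + x 3 • mm e0 e1 := by
      ext i; fin_cases i <;> simp [mm_apply, mf, e0, e1, e2] <;> ring
    rw [e]
    exact B.add_mem (B.add_mem (B.add_mem (B.smul_mem _ h0) (B.smul_mem _ h1)) (B.smul_mem _ h2))
      (B.smul_mem _ h3)
  · intro k I hk hI hne hz _
    have t0 := (simple_mm.2 _ (hI ⟨0, by omega⟩)).resolve_left (hne _)
    have t1 := (simple_mm.2 _ (hI ⟨1, by omega⟩)).resolve_left (hne _)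
    have := hz ⟨0, by omega⟩ ⟨1, by omega⟩ (by simp) e0 (by rw [t0]; trivial) e0 (by rw [t1]; trivial)
    simpa [mm_apply, mf, e0] using congrFun this 0
  · intro h
    have hr := h ⟨e2, by simp⟩ ⟨e0, by simp⟩
    have key : ∀ y : ({e0, e1, e2} : Set (Fin 4 → ℚ)), ¬ (nonAnn mm {e0, e1, e2}).Adj ⟨e2, by simp⟩ y := by
      rintro ⟨y, hy⟩ hadj
      rw [nonAnn, SimpleGraph.fromRel_adj] at hadj
      obtain ⟨hne, hh⟩ := hadj
      rcases hy with rfl | rfl | rfl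
      · rcases hh with hh | hh <;> apply hh <;> ext i <;> fin_cases i <;> simp [mm_apply, mf, e0, e2]
      · rcases hh with hh | hh <;> apply hh <;> ext i <;> fin_cases i <;> simp [mm_apply, mf, e1, e2]
      · exact hne rfl
    obtain ⟨w⟩ := hr
    have hne : e2 ≠ e0 := fun h => by simpa [e0, e2] using congrFun h 0
    generalize hu : (⟨e2, by simp⟩ : ({e0, e1, e2} : Set (Fin 4 → ℚ))) = u at w key
    generalize hv : (⟨e0, by simp⟩ : ({e0, e1, e2} : Set (Fin 4 → ℚ))) = v at w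
    cases w with
    | nil => exact hne (congrArg Subtype.val (hu.trans hv.symm))
    | cons hadj _ => exact key _ hadj

end Pool.Agent.Results.MP_8db76d_al.Disconnected
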